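import Mathlib
import Pool.Agent.H16.HN

set_option autoImplicit false

namespace Pool.Agent.Results.MP_0f7e3c_al.No

open Pool.Agent.H16.HN MvPolynomial

theorem result : ∃ P : MvPolynomial (Fin 6) ℂ, (∀ d : Fin 6 →₀ ℕ, d.degree < 2 → coeff d P = 0) ∧
    IsNilpotent (Hes P) ∧ SelfInv P ∧
    ∀ Ξ : Set (Fin 6 → ℂ), (∀ α ∈ Ξ, ∀ β ∈ Ξ, α ⬝ᵥ β = 0) → ∀ Q ∈ Algebra.adjoin ℂ (lin '' Ξ),
      ¬ ∀ d : Fin 6 →₀ ℕ, d.degree ≤ 3 → coeff d Q = coeff d P :=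
  ⟨P, ord, nilp, si, notin⟩

end Pool.Agent.Results.MP_0f7e3c_al.No
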